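import Pool.Agent.Run7.h669.DReflDefs

/-!
Theory of `d`-reflections: characterisation by `inducing + d-dense`, existence, uniqueness,
and preservation of arbitrary products.
-/

namespace Run7.h669.DRefl

open Topology TopologicalSpace Set

universe u v w

section basic

variable {X : Type u} [TopologicalSpace X] {Y : Type v} [TopologicalSpace Y]

theorem specLE_iff {x y : X} : SpecLE x y ↔ ∀ U : Set X, IsOpen U → x ∈ U → y ∈ U := by
  unfold SpecLE
  rw [mem_closure_iff]
  constructor
  · intro h U hU hx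
    obtain ⟨z, hz, hz'⟩ := h U hU hx
    rw [mem_singleton_iff] at hz'
    exact hz' ▸ hz
  · intro h U hU hx
    exact ⟨y, h U hU hx, rfl⟩

theorem SpecLE.refl (x : X) : SpecLE x x := specLE_iff.2 fun _ _ h => h

theorem SpecLE.trans {x y z : X} (h : SpecLE x y) (h' : SpecLE y z) : SpecLE x z :=
  specLE_iff.2 fun U hU hx => specLE_iff.1 h' U hU (specLE_iff.1 h U hU hx)

theorem SpecLE.map {x y : X} (h : SpecLE x y) {f : X → Y} (hf : Continuous f) :
    SpecLE (f x) (f y) :=
  specLE_iff.2 fun U hU hx => specLE_iff.1 h _ (hU.preimage hf) hx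

theorem eq_of_specLE [T0Space X] {x y : X} (h : SpecLE x y) (h' : SpecLE y x) : x = y := by
  apply T0Space.t0
  rw [inseparable_iff_forall_isOpen]
  intro U hU
  exact ⟨specLE_iff.1 h U hU, specLE_iff.1 h' U hU⟩

/-- `s` is the limit of `D`: an open set contains `s` iff it meets `D`. -/
def LimSup (D : Set X) (s : X) : Prop :=
  ∀ U : Set X, IsOpen U → (s ∈ U ↔ (D ∩ U).Nonempty)

theorem LimSup.isSup {D : Set X} {s : X} (h : LimSup D s) : SpecIsSup D s := by
  constructor
  · intro d hd
    exact specLE_iff.2 fun U hU hx => (h U hU).2 ⟨d, hd, hx⟩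
  · intro t ht
    refine specLE_iff.2 fun U hU hx => ?_
    obtain ⟨d, hd, hdU⟩ := (h U hU).1 hx
    exact specLE_iff.1 (ht d hd) U hU hdU

theorem LimSup.unique [T0Space X] {D : Set X} {s t : X} (h : LimSup D s) (h' : LimSup D t) :
    s = t := by
  apply T0Space.t0
  rw [inseparable_iff_forall_isOpen]
  intro U hU
  rw [h U hU, h' U hU]

theorem isSup_unique [T0Space X] {D : Set X} {s t : X} (h : SpecIsSup D s)
    (h' : SpecIsSup D t) : s = t :=
  eq_of_specLE (h.2 t h'.1) (h'.2 s h.1)

theorem IsDSpace.limSup (hX : IsDSpace X) {D : Set X} (hD : SpecDirected D) {s : X}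
    (hs : SpecIsSup D s) : LimSup D s := by
  intro U hU
  constructor
  · exact hX.meets D hD s hs U hU
  · rintro ⟨d, hd, hdU⟩
    exact specLE_iff.1 (hs.1 d hd) U hU hdU

theorem IsDSpace.exists_limSup (hX : IsDSpace X) {D : Set X} (hD : SpecDirected D) :
    ∃ s, LimSup D s := by
  obtain ⟨s, hs⟩ := hX.exists_sup D hD
  exact ⟨s, hX.limSup hD hs⟩

theorem isDSpace_of_limSup [T0Space X]
    (h : ∀ D : Set X, SpecDirected D → ∃ s, LimSup D s) : IsDSpace X where
  t0 := inferInstance
  exists_sup D hD := by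
    obtain ⟨s, hs⟩ := h D hD
    exact ⟨s, hs.isSup⟩
  meets D hD s hs U hU hsU := by
    obtain ⟨t, ht⟩ := h D hD
    have : s = t := isSup_unique hs ht.isSup
    subst this
    exact (ht U hU).1 hsU

theorem SpecDirected.image {D : Set X} (hD : SpecDirected D) {f : X → Y} (hf : Continuous f) :
    SpecDirected (f '' D) := by
  refine ⟨hD.1.image f, ?_⟩
  rintro _ ⟨a, ha, rfl⟩ _ ⟨b, hb, rfl⟩
  obtain ⟨c, hc, hac, hbc⟩ := hD.2 a ha b hb
  exact ⟨f c, ⟨c, hc, rfl⟩, hac.map hf, hbc.map hf⟩

theorem LimSup.image {D : Set X} {s : X} (h : LimSup D s) {f : X → Y} (hf : Continuous f) :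
    LimSup (f '' D) (f s) := by
  intro U hU
  have h1 := h (f ⁻¹' U) (hU.preimage hf)
  constructor
  · intro hs
    obtain ⟨d, hd, hdU⟩ := h1.1 hs
    exact ⟨f d, ⟨d, hd, rfl⟩, hdU⟩
  · rintro ⟨_, ⟨d, hd, rfl⟩, hdU⟩
    exact h1.2 ⟨d, hd, hdU⟩

/-- A set is `d`-closed if it contains the limits of its directed subsets. -/
def DClosed (A : Set X) : Prop :=
  ∀ D : Set X, D ⊆ A → SpecDirected D → ∀ s, LimSup D s → s ∈ A

theorem DClosed.preimage {A : Set Y} (hA : DClosed A) {f : X → Y} (hf : Continuous f) :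
    DClosed (f ⁻¹' A) := by
  intro D hDA hD s hs
  refine hA (f '' D) ?_ (hD.image hf) (f s) (hs.image hf)
  rintro _ ⟨d, hd, rfl⟩
  exact hDA hd

theorem DClosed.sInter {S : Set (Set X)} (hS : ∀ A ∈ S, DClosed A) : DClosed (⋂₀ S) := by
  intro D hDA hD s hs A hA
  exact hS A hA D (fun d hd => hDA hd A hA) hD s hs

theorem dClosed_iInter {ι : Sort*} {A : ι → Set X} (hS : ∀ i, DClosed (A i)) :
    DClosed (⋂ i, A i) := by
  intro D hDA hD s hs
  rw [mem_iInter]
  intro i
  exact hS i D (fun d hd => mem_iInter.1 (hDA hd) i) hD s hs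

/-- `μ` is `d`-dense: every `d`-closed set containing its range is everything. -/
def DDense (μ : X → Y) : Prop :=
  ∀ A : Set Y, range μ ⊆ A → DClosed A → ∀ z, z ∈ A

/-- The `d`-closure. -/
def dcl (A : Set X) : Set X := ⋂₀ {B | A ⊆ B ∧ DClosed B}

theorem subset_dcl (A : Set X) : A ⊆ dcl A := fun _ ha _ hB => hB.1 ha

theorem dClosed_dcl (A : Set X) : DClosed (dcl A) := DClosed.sInter fun _ hB => hB.2

theorem dcl_subset {A B : Set X} (h : A ⊆ B) (hB : DClosed B) : dcl A ⊆ B :=
  fun _ hx => hx B ⟨h, hB⟩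

/-- A `d`-closed subspace of a `d`-space is a `d`-space. -/
theorem IsDSpace.subtype (hX : IsDSpace X) {A : Set X} (hA : DClosed A) : IsDSpace A := by
  haveI := hX.t0
  apply isDSpace_of_limSup
  intro D hD
  have hD' := hD.image (continuous_subtype_val (p := fun x => x ∈ A))
  obtain ⟨s, hs⟩ := hX.exists_limSup hD'
  have hsA : s ∈ A := by
    refine hA _ ?_ hD' s hs
    rintro _ ⟨d, _, rfl⟩
    exact d.2
  refine ⟨⟨s, hsA⟩, ?_⟩
  intro U hU
  obtain ⟨V, hV, rfl⟩ := isOpen_induced_iff.1 hU
  have h1 := hs V hV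
  constructor
  · intro h
    obtain ⟨_, ⟨d, hd, rfl⟩, hdV⟩ := h1.1 h
    exact ⟨d, hd, hdV⟩
  · rintro ⟨d, hd, hdV⟩
    exact h1.2 ⟨d, ⟨d, hd, rfl⟩, hdV⟩

end basic

section pi

variable {ι : Type w} {Z : ι → Type v} [∀ i, TopologicalSpace (Z i)]

theorem specLE_pi {x y : ∀ i, Z i} (h : ∀ i, SpecLE (x i) (y i)) : SpecLE x y := by
  have h' : y ⤳ x := by
    rw [specializes_pi]
    intro i
    rw [specializes_iff_mem_closure]
    exact h i
  exact specializes_iff_mem_closure.1 h'

theorem exists_upper_finset {X : Type u} [TopologicalSpace X] {D : Set X} (hD : SpecDirected D)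
    {κ : Type*} (F : Finset κ) (d : κ → X) (hd : ∀ i ∈ F, d i ∈ D) :
    ∃ e ∈ D, ∀ i ∈ F, SpecLE (d i) e := by
  classical
  induction F using Finset.induction_on with
  | empty =>
    obtain ⟨e, he⟩ := hD.1
    exact ⟨e, he, by simp⟩
  | insert a s ha ih =>
    obtain ⟨e, he, hes⟩ := ih fun i hi => hd i (Finset.mem_insert_of_mem hi)
    obtain ⟨c, hc, h1, h2⟩ := hD.2 e he (d a) (hd a (Finset.mem_insert_self a s))
    refine ⟨c, hc, ?_⟩
    intro i hi
    rcases Finset.mem_insert.1 hi with rfl | hi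
    · exact h2
    · exact (hes i hi).trans h1

/-- Characterisation of opens of a product at a point. -/
theorem exists_box {U : Set (∀ i, Z i)} (hU : IsOpen U) {z : ∀ i, Z i} (hz : z ∈ U) :
    ∃ (F : Finset ι) (V : ∀ i, Set (Z i)), (∀ i, IsOpen (V i)) ∧ (∀ i ∈ F, z i ∈ V i) ∧
      ∀ w : ∀ i, Z i, (∀ i ∈ F, w i ∈ V i) → w ∈ U := by
  rw [isOpen_pi_iff] at hU
  obtain ⟨F, V, h1, h2⟩ := hU z hz
  classical
  refine ⟨F, fun i => if i ∈ F then V i else univ, ?_, ?_, ?_⟩
  · intro i
    by_cases hi : i ∈ F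
    · simp only [hi, if_true]; exact (h1 i hi).1
    · simp only [hi, if_false]; exact isOpen_univ
  · intro i hi
    simp only [hi, if_true]; exact (h1 i hi).2
  · intro w hw
    apply h2
    intro i hi
    have := hw i hi
    have hi' : i ∈ F := hi
    simpa only [hi', if_true] using this

theorem limSup_pi {D : Set (∀ i, Z i)} (hD : SpecDirected D) {s : ∀ i, Z i}
    (hs : ∀ i, LimSup ((fun x : ∀ i, Z i => x i) '' D) (s i)) : LimSup D s := by
  intro U hU
  constructor
  · intro hsU
    obtain ⟨F, V, hV, hzV, hw⟩ := exists_box hU hsU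
    have h1 : ∀ i, ∃ d : ∀ i, Z i, i ∈ F → d ∈ D ∧ d i ∈ V i := by
      intro i
      by_cases hi : i ∈ F
      · obtain ⟨_, ⟨d, hd, rfl⟩, hdV⟩ := (hs i (V i) (hV i)).1 (hzV i hi)
        exact ⟨d, fun _ => ⟨hd, hdV⟩⟩
      · exact ⟨s, fun h => absurd h hi⟩
    choose d hd using h1
    obtain ⟨e, he, hle⟩ := exists_upper_finset hD F d fun i hi => (hd i hi).1
    refine ⟨e, he, hw e ?_⟩
    intro i hi
    exact specLE_iff.1 ((hle i hi).map (continuous_apply i)) (V i) (hV i) (hd i hi).2
  · rintro ⟨d, hd, hdU⟩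
    have : SpecLE d s := specLE_pi fun i => (hs i).isSup.1 _ ⟨d, hd, rfl⟩
    exact specLE_iff.1 this U hU hdU

/-- Products of `d`-spaces are `d`-spaces. -/
theorem IsDSpace.pi (hZ : ∀ i, IsDSpace (Z i)) : IsDSpace (∀ i, Z i) := by
  haveI : ∀ i, T0Space (Z i) := fun i => (hZ i).t0
  apply isDSpace_of_limSup
  intro D hD
  have h : ∀ i, ∃ s, LimSup ((fun x : ∀ i, Z i => x i) '' D) s := fun i =>
    (hZ i).exists_limSup (hD.image (continuous_apply i))
  choose s hs using h
  exact ⟨s, limSup_pi hD hs⟩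

variable {X : ι → Type u} [∀ i, TopologicalSpace (X i)]

/-- The key lemma: a product of `d`-dense maps is `d`-dense. -/
theorem DDense.pi {μ : ∀ i, X i → Z i} (hμ : ∀ i, DDense (μ i)) :
    DDense (fun (x : ∀ i, X i) (i : ι) => μ i (x i)) := by
  classical
  intro C hrange hC z
  -- it suffices to treat the `d`-closure of the range
  set R : Set (∀ i, Z i) := range (fun (x : ∀ i, X i) (i : ι) => μ i (x i)) with hR
  suffices hz : z ∈ dcl R from dcl_subset hrange hC hz
  -- finite modifications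
  have key : ∀ i, ∀ c : Z i, ∀ w ∈ dcl R, Function.update w i c ∈ dcl R := by
    intro i
    have h1 : DClosed {c : Z i | ∀ w ∈ dcl R, Function.update w i c ∈ dcl R} := by
      have : {c : Z i | ∀ w ∈ dcl R, Function.update w i c ∈ dcl R} =
          ⋂ w : dcl R, (fun c : Z i => Function.update w.1 i c) ⁻¹' (dcl R) := by
        ext c
        simp only [mem_setOf_eq, mem_iInter, mem_preimage, Subtype.forall]
      rw [this]
      refine dClosed_iInter fun w => (dClosed_dcl R).preimage ?_
      exact continuous_const.update i continuous_id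
    intro c
    refine hμ i _ ?_ h1 c
    rintro _ ⟨x, rfl⟩ w hw
    have h2 : DClosed ((fun w : ∀ i, Z i => Function.update w i (μ i x)) ⁻¹' (dcl R)) :=
      (dClosed_dcl R).preimage (continuous_id.update i continuous_const)
    refine dcl_subset (A := R) ?_ h2 hw
    rintro _ ⟨y, rfl⟩
    refine subset_dcl R ⟨Function.update y i x, ?_⟩
    funext j
    by_cases hj : j = i
    · subst hj; simp
    · simp [Function.update_of_ne hj]
  -- a lower bound in the range
  have hb : ∀ i, ∃ b : X i, SpecLE (μ i b) (z i) := by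
    intro i
    refine hμ i {t | ∃ b : X i, SpecLE (μ i b) t} ?_ ?_ (z i)
    · rintro _ ⟨b, rfl⟩
      exact ⟨b, SpecLE.refl _⟩
    · intro D hDA hD s hs
      obtain ⟨d, hd⟩ := hD.1
      obtain ⟨b, hb⟩ := hDA hd
      exact ⟨b, hb.trans (hs.isSup.1 d hd)⟩
  choose b hb using hb
  let w : Finset ι → ∀ i, Z i := fun F i => if i ∈ F then z i else μ i (b i)
  have hwC : ∀ F, w F ∈ dcl R := by
    intro F
    induction F using Finset.induction_on with
    | empty =>
      refine subset_dcl R ⟨b, ?_⟩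
      funext i
      simp [w]
    | insert a s ha ih =>
      have : w (insert a s) = Function.update (w s) a (z a) := by
        funext j
        by_cases hj : j = a
        · subst hj; simp [w]
        · simp [w, Function.update_of_ne hj, hj]
      rw [this]
      exact key a _ _ ih
  have hwz : ∀ F, SpecLE (w F) z := by
    intro F
    apply specLE_pi
    intro i
    by_cases hi : i ∈ F
    · simp only [w, hi, if_true]; exact SpecLE.refl _
    · simp only [w, hi, if_false]; exact hb i
  have hmono : ∀ F G : Finset ι, F ⊆ G → SpecLE (w F) (w G) := by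
    intro F G hFG
    apply specLE_pi
    intro i
    by_cases hi : i ∈ F
    · simp only [w, hi, hFG hi, if_true]; exact SpecLE.refl _
    · by_cases hi' : i ∈ G
      · simp only [w, hi, hi', if_true, if_false]; exact hb i
      · simp only [w, hi, hi', if_false]; exact SpecLE.refl _
  have hdir : SpecDirected (range w) := by
    refine ⟨⟨w ∅, ∅, rfl⟩, ?_⟩
    rintro _ ⟨F, rfl⟩ _ ⟨G, rfl⟩
    exact ⟨w (F ∪ G), ⟨_, rfl⟩, hmono _ _ Finset.subset_union_left,
      hmono _ _ Finset.subset_union_right⟩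
  refine dClosed_dcl R (range w) ?_ hdir z ?_
  · rintro _ ⟨F, rfl⟩
    exact hwC F
  · intro U hU
    constructor
    · intro hzU
      obtain ⟨F, V, hV, hzV, hw⟩ := exists_box hU hzU
      refine ⟨w F, ⟨F, rfl⟩, hw _ ?_⟩
      intro i hi
      simp only [w, hi, if_true]
      exact hzV i hi
    · rintro ⟨_, ⟨F, rfl⟩, hF⟩
      exact specLE_iff.1 (hwz F) U hU hF

end pi

section reflection

variable {X Z : Type u} [TopologicalSpace X] [TopologicalSpace Z]

/-- Inducing, `d`-dense maps into `d`-spaces are `d`-reflections. -/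
theorem isDReflection_of {μ : X → Z} (hZ : IsDSpace Z) (hind : IsInducing μ)
    (hd : DDense μ) : IsDReflection μ where
  dspace := hZ
  cont := hind.continuous
  lift := by
    intro Y _ hY f hf
    haveI := hY.t0
    -- transporting open sets
    have htr : ∀ V : Set Y, IsOpen V → ∃ W : Set Z, IsOpen W ∧ μ ⁻¹' W = f ⁻¹' V :=
      fun V hV => hind.isOpen_iff.1 (hV.preimage hf)
    have hall : ∀ z : Z, ∃ y : Y, ∀ V : Set Y, IsOpen V → ∀ W : Set Z, IsOpen W →
        μ ⁻¹' W = f ⁻¹' V → (y ∈ V ↔ z ∈ W) := by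
      refine hd {z | ∃ y : Y, ∀ V : Set Y, IsOpen V → ∀ W : Set Z, IsOpen W →
        μ ⁻¹' W = f ⁻¹' V → (y ∈ V ↔ z ∈ W)} ?_ ?_
      · rintro _ ⟨x, rfl⟩
        refine ⟨f x, fun V _ W _ h => ?_⟩
        have : x ∈ μ ⁻¹' W ↔ x ∈ f ⁻¹' V := by rw [h]
        exact this.symm
      · intro D hDA hD s hs
        have hex : ∀ d : Z, ∃ y : Y, d ∈ D → ∀ V : Set Y, IsOpen V → ∀ W : Set Z, IsOpen W →
            μ ⁻¹' W = f ⁻¹' V → (y ∈ V ↔ d ∈ W) := by
          intro d
          by_cases hd' : d ∈ D
          · obtain ⟨y, hy⟩ := hDA hd'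
            exact ⟨y, fun _ => hy⟩
          · obtain ⟨d0, hd0⟩ := hD.1
            obtain ⟨y, _⟩ := hDA hd0
            exact ⟨y, fun h => absurd h hd'⟩
        choose y hy using hex
        have hdir : SpecDirected (y '' D) := by
          refine ⟨hD.1.image y, ?_⟩
          have hmono : ∀ a ∈ D, ∀ c ∈ D, SpecLE a c → SpecLE (y a) (y c) := by
            intro a ha c hc hac
            refine specLE_iff.2 fun V hV hyV => ?_
            obtain ⟨W, hW, hWV⟩ := htr V hV
            rw [hy c hc V hV W hW hWV]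
            rw [hy a ha V hV W hW hWV] at hyV
            exact specLE_iff.1 hac W hW hyV
          rintro _ ⟨a, ha, rfl⟩ _ ⟨b, hb, rfl⟩
          obtain ⟨c, hc, hac, hbc⟩ := hD.2 a ha b hb
          exact ⟨y c, ⟨c, hc, rfl⟩, hmono a ha c hc hac, hmono b hb c hc hbc⟩
        obtain ⟨t, ht⟩ := hY.exists_limSup hdir
        refine ⟨t, fun V hV W hW h => ?_⟩
        rw [ht V hV, hs W hW]
        constructor
        · rintro ⟨_, ⟨d, hd', rfl⟩, hdV⟩
          exact ⟨d, hd', (hy d hd' V hV W hW h).1 hdV⟩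
        · rintro ⟨d, hd', hdW⟩
          exact ⟨y d, ⟨d, hd', rfl⟩, (hy d hd' V hV W hW h).2 hdW⟩
    choose g hg using hall
    have hgc : Continuous g := by
      refine ⟨fun V hV => ?_⟩
      obtain ⟨W, hW, hWV⟩ := htr V hV
      have : g ⁻¹' V = W := by
        ext z
        exact hg z V hV W hW hWV
      rw [this]; exact hW
    have hgμ : g ∘ μ = f := by
      funext x
      apply T0Space.t0
      rw [inseparable_iff_forall_isOpen]
      intro V hV
      obtain ⟨W, hW, hWV⟩ := htr V hV
      have h1 := hg (μ x) V hV W hW hWV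
      have h2 : x ∈ μ ⁻¹' W ↔ x ∈ f ⁻¹' V := by rw [hWV]
      exact h1.trans h2
    refine ⟨g, ⟨hgc, hgμ⟩, ?_⟩
    rintro g' ⟨hgc', hgμ'⟩
    have : ∀ z, z ∈ {z | g' z = g z} := by
      refine hd {z | g' z = g z} ?_ ?_
      · rintro _ ⟨x, rfl⟩
        exact (congrFun hgμ' x).trans (congrFun hgμ x).symm
      · intro D hDA hD s hs
        have h1 := hs.image hgc
        have h2 := hs.image hgc'
        have h3 : g' '' D = g '' D := by
          apply Set.image_congr
          intro d hd'
          exact hDA hd'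
        rw [h3] at h2
        exact h2.unique h1
    funext z
    exact this z

/-- The Sierpinski space (in any universe) is a `d`-space. -/
theorem isDSpace_of_equiv_prop {S : Type u} [TopologicalSpace S] [T0Space S] (t b : S)
    (h : ∀ s : S, s = t ∨ s = b) (htb : SpecLE b t) : IsDSpace S := by
  apply isDSpace_of_limSup
  intro D hD
  by_cases ht : t ∈ D
  · refine ⟨t, fun U hU => ⟨fun h' => ⟨t, ht, h'⟩, ?_⟩⟩
    rintro ⟨d, _, hdU⟩
    rcases h d with rfl | rfl
    · exact hdU
    · exact specLE_iff.1 htb U hU hdU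
  · refine ⟨b, fun U hU => ?_⟩
    have hDb : ∀ d ∈ D, d = b := by
      intro d hd
      rcases h d with rfl | rfl
      · exact absurd hd ht
      · rfl
    constructor
    · intro hb
      obtain ⟨d, hd⟩ := hD.1
      exact ⟨d, hd, by rw [hDb d hd]; exact hb⟩
    · rintro ⟨d, hd, hdU⟩
      rw [hDb d hd] at hdU; exact hdU

theorem specLE_false_true : SpecLE False True := by
  refine specLE_iff.2 fun U hU hF => ?_
  have h : U ∈ nhds False := hU.mem_nhds hF
  rw [nhds_false, Filter.mem_top] at h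
  rw [h]; trivial

theorem prop_cases (p : Prop) : p = True ∨ p = False := by
  by_cases h : p
  · left; exact propext ⟨fun _ => trivial, fun _ => h⟩
  · right; exact propext ⟨fun h' => h h', fun h' => h'.elim⟩

theorem isDSpace_prop : IsDSpace Prop :=
  isDSpace_of_equiv_prop True False prop_cases specLE_false_true

theorem isDSpace_ulift_prop : IsDSpace (ULift.{u} Prop) := by
  haveI : T0Space (ULift.{u} Prop) :=
    t0Space_of_injective_of_continuous ULift.down_injective continuous_uliftDown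
  refine isDSpace_of_equiv_prop (ULift.up True) (ULift.up False) ?_ ?_
  · rintro ⟨p⟩
    rcases prop_cases p with rfl | rfl
    · exact Or.inl rfl
    · exact Or.inr rfl
  · exact specLE_false_true.map continuous_uliftUp

/-- The unit of a `d`-reflection is inducing. -/
theorem IsDReflection.isInducing {μ : X → Z} (h : IsDReflection μ) : IsInducing μ := by
  rw [isInducing_iff]
  apply le_antisymm
  · exact h.cont.le_induced
  · intro U hU
    have hf : Continuous fun x : X => (ULift.up (x ∈ U) : ULift.{u} Prop) :=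
      continuous_uliftUp.comp (isOpen_iff_continuous_mem.1 hU)
    obtain ⟨g, ⟨hg, hgf⟩, _⟩ := h.lift (ULift.{u} Prop) isDSpace_ulift_prop _ hf
    refine isOpen_induced_iff.2 ⟨{z | (g z).down}, ?_, ?_⟩
    · exact isOpen_iff_continuous_mem.2 (continuous_uliftDown.comp hg)
    · ext x
      have := congrFun hgf x
      simp only [Function.comp_apply] at this
      simp only [mem_preimage, mem_setOf_eq, this]

/-- The unit of a `d`-reflection is `d`-dense. -/
theorem IsDReflection.dDense {μ : X → Z} (h : IsDReflection μ) : DDense μ := by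
  intro A hrange hA z
  have hAd : IsDSpace A := h.dspace.subtype hA
  have hf : Continuous fun x : X => (⟨μ x, hrange ⟨x, rfl⟩⟩ : A) :=
    h.cont.subtype_mk _
  obtain ⟨g, ⟨hg, hgf⟩, _⟩ := h.lift A hAd _ hf
  obtain ⟨k, _, huniq⟩ := h.lift Z h.dspace μ h.cont
  have h1 : (fun z => (g z : Z)) = k := by
    apply huniq
    refine ⟨continuous_subtype_val.comp hg, ?_⟩
    funext x
    have := congrFun hgf x
    simp only [Function.comp_apply] at this
    simp only [Function.comp_apply, this]
  have h2 : (id : Z → Z) = k := huniq id ⟨continuous_id, rfl⟩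
  have h3 : (g z : Z) = z := congrFun (h1.trans h2.symm) z
  rw [← h3]
  exact (g z).2

/-- Characterisation of `d`-reflections. -/
theorem isDReflection_iff {μ : X → Z} :
    IsDReflection μ ↔ IsDSpace Z ∧ IsInducing μ ∧ DDense μ :=
  ⟨fun h => ⟨h.dspace, h.isInducing, h.dDense⟩, fun h => isDReflection_of h.1 h.2.1 h.2.2⟩

/-- Uniqueness of `d`-reflections. -/
theorem IsDReflection.exists_homeomorph {W : Type u} [TopologicalSpace W] {μ : X → Z}
    {ν : X → W} (hμ : IsDReflection μ) (hν : IsDReflection ν) :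
    ∃ e : W ≃ₜ Z, ∀ x, e (ν x) = μ x := by
  obtain ⟨f, ⟨hf, hfν⟩, _⟩ := hν.lift Z hμ.dspace μ hμ.cont
  obtain ⟨g, ⟨hg, hgμ⟩, _⟩ := hμ.lift W hν.dspace ν hν.cont
  obtain ⟨k, _, hk⟩ := hμ.lift Z hμ.dspace μ hμ.cont
  obtain ⟨l, _, hl⟩ := hν.lift W hν.dspace ν hν.cont
  have h1 : f ∘ g = id := by
    have a : f ∘ g = k := hk _ ⟨hf.comp hg, by rw [Function.comp_assoc, hgμ, hfν]⟩
    have b : id = k := hk _ ⟨continuous_id, rfl⟩
    rw [a, b]
  have h2 : g ∘ f = id := by
    have a : g ∘ f = l := hl _ ⟨hg.comp hf, by rw [Function.comp_assoc, hfν, hgμ]⟩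
    have b : id = l := hl _ ⟨continuous_id, rfl⟩
    rw [a, b]
  refine ⟨{ toFun := f, invFun := g, left_inv := congrFun h2, right_inv := congrFun h1,
            continuous_toFun := hf, continuous_invFun := hg }, fun x => congrFun hfν x⟩

/-- Existence of `d`-reflections. -/
theorem exists_isDReflection (X : Type u) [TopologicalSpace X] :
    ∃ (Z : Type u) (_ : TopologicalSpace Z) (μ : X → Z), IsDReflection μ := by
  let P := Opens X → Prop
  let j : X → P := fun x U => x ∈ U
  have hj : IsInducing j := productOfMemOpens_isInducing X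
  have hP : IsDSpace P := IsDSpace.pi fun _ => isDSpace_prop
  let C : Set P := dcl (range j)
  have hC : DClosed C := dClosed_dcl _
  let μ : X → C := fun x => ⟨j x, subset_dcl _ ⟨x, rfl⟩⟩
  refine ⟨C, inferInstance, μ, isDReflection_of (hP.subtype hC) ?_ ?_⟩
  · have : IsInducing (Subtype.val ∘ μ) := hj
    exact IsInducing.of_comp_iff IsInducing.subtypeVal |>.1 this
  · intro A hrange hA z
    have h1 : DClosed (Subtype.val '' A) := by
      intro D hDA hD s hs
      have hsC : s ∈ C := hC D (fun d hd => by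
        obtain ⟨a, _, rfl⟩ := hDA hd
        exact a.2) hD s hs
      refine ⟨⟨s, hsC⟩, ?_, rfl⟩
      have hDimg : Subtype.val '' (Subtype.val ⁻¹' D : Set C) = D := by
        ext d
        constructor
        · rintro ⟨a, ha, rfl⟩; exact ha
        · intro hd
          obtain ⟨a, ha, rfl⟩ := hDA hd
          exact ⟨a, hd, rfl⟩
      refine hA (Subtype.val ⁻¹' D) ?_ ?_ ⟨s, hsC⟩ ?_
      · intro d hd
        obtain ⟨a, ha, hda⟩ := hDA hd
        have : a = d := Subtype.ext hda
        exact this ▸ ha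
      · refine ⟨?_, ?_⟩
        · obtain ⟨d, hd⟩ := hD.1
          obtain ⟨a, ha, rfl⟩ := hDA hd
          exact ⟨a, hd⟩
        · intro a ha b hb
          obtain ⟨c, hc, hac, hbc⟩ := hD.2 a.1 ha b.1 hb
          obtain ⟨c', hc', rfl⟩ := hDA hc
          refine ⟨c', hc, ?_, ?_⟩
          · refine specLE_iff.2 fun U hU haU => ?_
            obtain ⟨V, hV, rfl⟩ := isOpen_induced_iff.1 hU
            exact specLE_iff.1 hac V hV haU
          · refine specLE_iff.2 fun U hU haU => ?_
            obtain ⟨V, hV, rfl⟩ := isOpen_induced_iff.1 hU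
            exact specLE_iff.1 hbc V hV haU
      · intro U hU
        obtain ⟨V, hV, rfl⟩ := isOpen_induced_iff.1 hU
        have h2 := hs V hV
        constructor
        · intro h
          obtain ⟨d, hd, hdV⟩ := h2.1 h
          obtain ⟨a, ha, rfl⟩ := hDA hd
          exact ⟨a, hd, hdV⟩
        · rintro ⟨d, hd, hdV⟩
          exact h2.2 ⟨d.1, hd, hdV⟩
    have h2 : C ⊆ Subtype.val '' A := by
      refine dcl_subset ?_ h1
      rintro _ ⟨x, rfl⟩
      exact ⟨μ x, hrange ⟨x, rfl⟩, rfl⟩
    obtain ⟨a, ha, haz⟩ := h2 z.2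
    have : a = z := Subtype.ext haz
    exact this ▸ ha

end reflection

section main

/-- Arbitrary products of `d`-reflections are `d`-reflections. -/
theorem IsDReflection.pi {I : Type u} {X Z : I → Type u} [∀ i, TopologicalSpace (X i)]
    [∀ i, TopologicalSpace (Z i)] {μ : ∀ i, X i → Z i} (h : ∀ i, IsDReflection (μ i)) :
    IsDReflection (fun (x : ∀ i, X i) (i : I) => μ i (x i)) :=
  isDReflection_of (IsDSpace.pi fun i => (h i).dspace)
    (IsInducing.piMap fun i => (h i).isInducing) (DDense.pi fun i => (h i).dDense)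

end main

end Run7.h669.DRefl
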