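import Mathlib

/-!
Definitions for the `d`-reflection problem: the specialization order, directed sets, suprema,
`d`-spaces and `d`-reflections.
-/

namespace Run7.h669.DRefl

universe u v

/-- The specialization order: `x ≤ y` iff `x` lies in the closure of `{y}`. -/
def SpecLE {X : Type u} [TopologicalSpace X] (x y : X) : Prop :=
  x ∈ closure ({y} : Set X)

/-- A (nonempty) directed subset with respect to the specialization order. -/
def SpecDirected {X : Type u} [TopologicalSpace X] (D : Set X) : Prop :=
  D.Nonempty ∧ ∀ a ∈ D, ∀ b ∈ D, ∃ c ∈ D, SpecLE a c ∧ SpecLE b c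

/-- `s` is a supremum (least upper bound) of `D` with respect to the specialization order. -/
def SpecIsSup {X : Type u} [TopologicalSpace X] (D : Set X) (s : X) : Prop :=
  (∀ d ∈ D, SpecLE d s) ∧ ∀ t : X, (∀ d ∈ D, SpecLE d t) → SpecLE s t

/-- A `d`-space (monotone convergence space): a `T₀` space in which every directed subset `D` for
the specialization order has a supremum, and every open set containing the supremum of `D`
meets `D`. -/
structure IsDSpace (X : Type u) [TopologicalSpace X] : Prop where
  t0 : T0Space X
  exists_sup : ∀ D : Set X, SpecDirected D → ∃ s : X, SpecIsSup D s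
  meets : ∀ D : Set X, SpecDirected D → ∀ s : X, SpecIsSup D s →
    ∀ U : Set X, IsOpen U → s ∈ U → (D ∩ U).Nonempty

/-- `μ : X → Z` is a `d`-reflection of `X`: `Z` is a `d`-space, `μ` is continuous, and every
continuous map `f` from `X` to a `d`-space `Y` factors uniquely through `μ` by a continuous map. -/
structure IsDReflection {X Z : Type u} [TopologicalSpace X] [TopologicalSpace Z]
    (μ : X → Z) : Prop where
  dspace : IsDSpace Z
  cont : Continuous μ
  lift : ∀ (Y : Type u) [TopologicalSpace Y], IsDSpace Y → ∀ f : X → Y, Continuous f →
    ∃! g : Z → Y, Continuous g ∧ g ∘ μ = f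

end Run7.h669.DRefl
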